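import Pool.Agent.Q26.CP.Main

/-!
# Uniformity in all characteristics
-/

set_option autoImplicit false

namespace Pool.Agent.Q26.CP

open FirstOrder FirstOrder.Language FirstOrder.Ring FirstOrder.Field Cardinal Filter

/-- decreasing first-order properties, each of which holds for some point over the algebraically
closed field `K₀`, hold simultaneously for a point over some algebraically closed field of the same
characteristic -/
theorem exists_field {k : ℕ} (P : ℕ → Pred k) (hP : ∀ n, IsFirstOrder (P n))
    (anti : ∀ (m n : ℕ), m ≤ n → ∀ (K : Type) [Field K] (x : Fin k → K), P n K x → P m K x)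
    (c : ℕ) (K₀ : Type) [Field K₀] [IsAlgClosed K₀] [CharP K₀ c]
    (h : ∀ n, ∃ x : Fin k → K₀, P n K₀ x) :
    ∃ (K : Type) (_ : Field K) (_ : IsAlgClosed K) (_ : CharP K c) (x : Fin k → K),
      ∀ n, P n K x := by
  let U : Ultrafilter ℕ := hyperfilter ℕ
  let _ := compatibleRingOfRing K₀
  let K : Type := (U : Filter ℕ).Product (fun _ => K₀)
  have hmodel : (Theory.ACF c).Model K := by
    refine ⟨fun φ hφ => ?_⟩
    rw [Ultraproduct.sentence_realize]
    exact Eventually.of_forall fun _ => Theory.realize_sentence_of_mem (Theory.ACF c) hφ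
  let i1 : Field K := fieldOfModelACF c K
  have := modelField_of_modelACF c K
  let _ := compatibleRingOfModelField K
  have i2 := isAlgClosed_of_model_ACF c K
  have i3 := charP_of_model_fieldOfChar c K
  choose x hx using h
  let y : Fin k → K := fun i => ((fun n => x n i : ∀ _ : ℕ, K₀) : (U : Filter ℕ).Product _)
  refine ⟨K, i1, i2, i3, y, fun m => ?_⟩
  obtain ⟨φ, hφ⟩ := hP m
  rw [← hφ K y]
  refine (Ultraproduct.realize_formula_cast φ (fun (i : Fin k) (n : ℕ) => x n i)).2 ?_
  have h1 : ∀ᶠ n in (U : Filter ℕ), m ≤ n := by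
    have h2 : ∀ᶠ n in (cofinite : Filter ℕ), m ≤ n := by
      rw [Nat.cofinite_eq_atTop]
      exact eventually_ge_atTop m
    exact Filter.hyperfilter_le_cofinite h2
  filter_upwards [h1] with n hn
  exact (hφ K₀ (x n)).2 (anti m n hn K₀ (x n) (hx n))

theorem Problem.Uniform.mono {P : Problem} {m n : ℕ} (hmn : m ≤ n) {K : Type} [Field K]
    (h : P.Uniform m K) : P.Uniform n K :=
  fun x hx => P.con_mono m n hmn K x (h x (P.hyp_anti m n hmn K x hx))

/-- Over the algebraically closed fields of characteristic `p`, solutions are automatically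
uniform. -/
theorem Problem.solved_char_iff (P : Problem) (p : Nat.Primes) :
    (∀ (K : Type) [Field K] [IsAlgClosed K] [CharP K p], P.Solved K) ↔
      ∃ n, P.Uniform n (Fbar p) := by
  constructor
  · intro h
    by_contra hn
    have h1 : ∀ n, ∃ x : Fin P.k → Fbar p, P.hyp n (Fbar p) x ∧ ¬ P.con n (Fbar p) x := by
      intro n
      by_contra h2
      refine hn ⟨n, fun x hx => ?_⟩
      by_contra h3
      exact h2 ⟨x, hx, h3⟩
    obtain ⟨K, i1, i2, i3, x, hx⟩ := exists_field
      (fun n K _ x => P.hyp n K x ∧ ¬ P.con n K x)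
      (fun n => (P.fo_hyp n).and (P.fo_con n).not)
      (fun m n hmn K _ x hx => ⟨P.hyp_anti m n hmn K x hx.1,
        fun h2 => hx.2 (P.con_mono m n hmn K x h2)⟩) p (Fbar p) h1
    obtain ⟨n, hn⟩ := h K x fun n => (hx n).1
    exact (hx n).2 hn
  · rintro ⟨n, hn⟩ K _ _ _
    exact Problem.Uniform.solved
      (((P.fo n).holdsOver_iff p (Or.inl p.2) (Fbar p) K).1 hn)

/-- A problem is solved over all algebraically closed fields iff there is one bound for all
primes. -/
theorem Problem.solved_iff (P : Problem) :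
    (∀ (K : Type) [Field K] [IsAlgClosed K], P.Solved K) ↔
      ∃ n, ∀ p : Nat.Primes, P.Uniform n (Fbar p) := by
  constructor
  · intro h
    obtain ⟨n₀, hn₀⟩ := (P.tfae.out 0 4).1 (h ℂ)
    have h1 : ∀ p : Nat.Primes, ∃ n, P.Uniform n (Fbar p) := fun p =>
      (P.solved_char_iff p).1 fun K _ _ _ => h K
    choose f hf using h1
    obtain ⟨s, hs⟩ := hn₀.exists_finset_coe
    refine ⟨n₀ + s.sup f, fun p => ?_⟩
    by_cases hp : p ∈ s
    · exact (hf p).mono (le_add_left (Finset.le_sup hp))
    · have h2 : P.Uniform n₀ (Fbar p) := by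
        by_contra h3
        have h4 : p ∈ (s : Set Nat.Primes) := by
          rw [hs]
          exact h3
        exact hp h4
      exact h2.mono (Nat.le_add_right _ _)
  · rintro ⟨n, hn⟩ K _ _
    rcases CharP.exists' K with h0 | ⟨p, hp, hK⟩
    · have h1 : P.UniformAlmost := by
        refine ⟨n, ?_⟩
        have : {p : Nat.Primes | ¬ P.Uniform n (Fbar p)} = ∅ := by
          ext p
          simp [hn p]
        rw [this]
        exact Set.finite_empty
      have h2 : ∀ (K : Type) [Field K] [IsAlgClosed K] [CharZero K], P.Solved K :=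
        (P.tfae.out 4 1).1 h1
      exact h2 K
    · have h1 := (P.solved_char_iff ⟨p, hp.out⟩).2 ⟨n, hn _⟩
      have : CharP K ((⟨p, hp.out⟩ : Nat.Primes) : ℕ) := hK
      exact h1 K

end Pool.Agent.Q26.CP
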