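import Pool.Agent.Q26.CP.AllChar

/-!
# Conjectures for all varieties over algebraically closed fields
-/

set_option autoImplicit false

namespace Pool.Agent.Q26.CP

/-- a bound for `F̄_p` for all `p` is a bound for all algebraically closed fields -/
theorem Problem.uniform_all (P : Problem) (n : ℕ) :
    (∀ p : Nat.Primes, P.Uniform n (Fbar p)) ↔
      ∀ (K : Type) [Field K] [IsAlgClosed K], P.Uniform n K := by
  constructor
  · intro h K _ _
    rcases CharP.exists' K with h0 | ⟨p, hp, hK⟩
    · refine (P.uniform_iff_finite n K).2 ?_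
      have : {p : Nat.Primes | ¬ P.Uniform n (Fbar p)} = ∅ := by
        ext p
        simp [h p]
      rw [this]
      exact Set.finite_empty
    · have : CharP K ((⟨p, hp.out⟩ : Nat.Primes) : ℕ) := hK
      exact ((P.fo n).holdsOver_iff p (Or.inl hp.out) (Fbar ⟨p, hp.out⟩) K).1 (h ⟨p, hp.out⟩)
  · exact fun h p => h (Fbar p)

/-- a problem is solved over all algebraically closed fields iff there is one bound for all of
them -/
theorem Problem.solved_iff_all (P : Problem) :
    (∀ (K : Type) [Field K] [IsAlgClosed K], P.Solved K) ↔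
      ∃ n, ∀ (K : Type) [Field K] [IsAlgClosed K], P.Uniform n K := by
  rw [P.solved_iff]
  exact exists_congr fun n => P.uniform_all n

variable {T : Type} (P : T → Problem) (S : (K : Type) → [Field K] → Prop)
    (hS : ∀ (K : Type) [Field K] [IsAlgClosed K], S K ↔ ∀ t, (P t).Solved K)
    (E : T → ℕ → Nat.Primes → Prop) (hE : ∀ t n p, (P t).Uniform n (Fbar p) ↔ E t n p)

include hS hE

/-- a conjecture over all algebraically closed fields -/
theorem all_iff : (∀ (K : Type) [Field K] [IsAlgClosed K], S K) ↔ ∀ t, ∃ n, ∀ p, E t n p := by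
  simp only [← hE]
  constructor
  · intro h t
    exact (P t).solved_iff.1 fun K _ _ => (hS K).1 (h K) t
  · intro h K _ _
    exact (hS K).2 fun t => (P t).solved_iff.2 (h t) K

/-- a conjecture over all algebraically closed fields of characteristic zero -/
theorem zero_tfae : [∀ (K : Type) [Field K] [IsAlgClosed K] [CharZero K], S K, S ℂ,
    ∀ t, ∃ n, {p | E t n p}.Infinite, ∀ t, ∃ n, {p | ¬ E t n p}.Finite].TFAE := by
  simp only [← hE]
  tfae_have 1 → 2 := fun h => h ℂ
  tfae_have 2 → 4 := fun h t => ((P t).tfae.out 0 4).1 ((hS ℂ).1 h t)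
  tfae_have 4 → 3 := fun h t => ((P t).tfae.out 4 3).1 (h t)
  tfae_have 3 → 1 := by
    intro h K _ _ _
    refine (hS K).2 fun t => ?_
    have h2 : ∀ (K : Type) [Field K] [IsAlgClosed K] [CharZero K], (P t).Solved K :=
      ((P t).tfae.out 3 1).1 (h t)
    exact h2 K
  tfae_finish

/-- a conjecture over all algebraically closed fields of characteristic `p` -/
theorem char_iff (p : Nat.Primes) :
    (∀ (K : Type) [Field K] [IsAlgClosed K] [CharP K p], S K) ↔ ∀ t, ∃ n, E t n p := by
  simp only [← hE]
  constructor
  · intro h t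
    exact ((P t).solved_char_iff p).1 fun K _ _ _ => (hS K).1 (h K) t
  · intro h K _ _ _
    exact (hS K).2 fun t => ((P t).solved_char_iff p).2 (h t) K

end Pool.Agent.Q26.CP
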