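import Mathlib

/-!
# Uniformity and reduction modulo `p` for statements of the form: for all `x` there is an `n`
-/

set_option autoImplicit false

namespace Pool.Agent.Q26.CP

open FirstOrder FirstOrder.Language FirstOrder.Ring FirstOrder.Field Cardinal Filter

/-- a property of the points of the affine space `K ^ k`, for all fields `K` -/
abbrev Pred (k : ℕ) := ∀ (K : Type) [Field K], (Fin k → K) → Prop

/-- over algebraically closed fields, the property `P` is given by a first-order formula in the
language of rings (equivalently, by finitely many polynomial equations and inequations with integral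
coefficients) -/
def IsFirstOrder {k : ℕ} (P : Pred k) : Prop :=
  ∃ φ : Language.ring.Formula (Fin k), ∀ (K : Type) [Field K] [IsAlgClosed K] [CompatibleRing K]
    (x : Fin k → K), φ.Realize x ↔ P K x

/-- all points of `K ^ k` have the property `P` -/
def HoldsOver {k : ℕ} (P : Pred k) (K : Type) [Field K] : Prop := ∀ x : Fin k → K, P K x

/-- the sentence `∀ x, φ x` -/
noncomputable def allSentence {k : ℕ} (φ : Language.ring.Formula (Fin k)) :
    Language.ring.Sentence :=
  Formula.iAlls (Fin k) (φ.relabel (Sum.inr : Fin k → Empty ⊕ Fin k))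

theorem realize_allSentence {k : ℕ} (φ : Language.ring.Formula (Fin k)) (K : Type)
    [Language.ring.Structure K] : K ⊨ allSentence φ ↔ ∀ x : Fin k → K, φ.Realize x := by
  unfold allSentence Sentence.Realize
  rw [Formula.realize_iAlls]
  refine forall_congr' fun x => ?_
  rw [Formula.realize_relabel]
  exact Iff.rfl

/-- the property `H → C` is first-order if `H` and `C` are -/
theorem IsFirstOrder.imp {k : ℕ} {H C : Pred k} (hH : IsFirstOrder H) (hC : IsFirstOrder C) :
    IsFirstOrder (fun K _ x => H K x → C K x) := by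
  obtain ⟨φ, hφ⟩ := hH
  obtain ⟨ψ, hψ⟩ := hC
  refine ⟨φ.imp ψ, fun K _ _ _ x => ?_⟩
  rw [Formula.realize_imp, hφ, hψ]

/-- the property `H ∧ C` is first-order if `H` and `C` are -/
theorem IsFirstOrder.and {k : ℕ} {H C : Pred k} (hH : IsFirstOrder H) (hC : IsFirstOrder C) :
    IsFirstOrder (fun K _ x => H K x ∧ C K x) := by
  obtain ⟨φ, hφ⟩ := hH
  obtain ⟨ψ, hψ⟩ := hC
  refine ⟨φ ⊓ ψ, fun K _ _ _ x => ?_⟩
  rw [Formula.realize_inf, hφ, hψ]

/-- the negation of a first-order property is first-order -/
theorem IsFirstOrder.not {k : ℕ} {H : Pred k} (hH : IsFirstOrder H) :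
    IsFirstOrder (fun K _ x => ¬ H K x) := by
  obtain ⟨φ, hφ⟩ := hH
  refine ⟨φ.not, fun K _ _ _ x => ?_⟩
  rw [Formula.realize_not, hφ]

/-- there is a sentence which holds over an algebraically closed field iff the property holds for
all points -/
theorem IsFirstOrder.sentence {k : ℕ} {P : Pred k} (hP : IsFirstOrder P) :
    ∃ ψ : Language.ring.Sentence, ∀ (K : Type) [Field K] [IsAlgClosed K] [CompatibleRing K],
      K ⊨ ψ ↔ HoldsOver P K := by
  obtain ⟨φ, hφ⟩ := hP
  refine ⟨allSentence φ, fun K _ _ _ => ?_⟩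
  rw [realize_allSentence]
  exact forall_congr' fun x => hφ K x

/-- a first-order property holds over one algebraically closed field of characteristic `p` iff
it holds over all of them -/
theorem IsFirstOrder.holdsOver_iff {k : ℕ} {P : Pred k} (hP : IsFirstOrder P) (p : ℕ)
    (hp : p.Prime ∨ p = 0) (K L : Type) [Field K] [IsAlgClosed K] [CharP K p] [Field L]
    [IsAlgClosed L] [CharP L p] : HoldsOver P K ↔ HoldsOver P L := by
  obtain ⟨ψ, hψ⟩ := hP.sentence
  let _ := compatibleRingOfRing K
  let _ := compatibleRingOfRing L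
  have h := ACF_isComplete hp
  rw [← hψ K, ← hψ L, h.realize_sentence_iff, h.realize_sentence_iff]

/-- an algebraic closure of the field with `p` elements -/
noncomputable abbrev Fbar (p : Nat.Primes) : Type :=
  letI : Fact (p : ℕ).Prime := ⟨p.2⟩
  AlgebraicClosure (ZMod p)

noncomputable instance (p : Nat.Primes) : Field (Fbar p) :=
  letI : Fact (p : ℕ).Prime := ⟨p.2⟩
  inferInstanceAs (Field (AlgebraicClosure (ZMod p)))

instance (p : Nat.Primes) : IsAlgClosed (Fbar p) :=
  letI : Fact (p : ℕ).Prime := ⟨p.2⟩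
  inferInstanceAs (IsAlgClosed (AlgebraicClosure (ZMod p)))

instance (p : Nat.Primes) : CharP (Fbar p) p :=
  letI : Fact (p : ℕ).Prime := ⟨p.2⟩
  inferInstanceAs (CharP (AlgebraicClosure (ZMod p)) p)

/-- **Lefschetz principle** -/
theorem IsFirstOrder.lefschetz {k : ℕ} {P : Pred k} (hP : IsFirstOrder P) (K : Type) [Field K]
    [IsAlgClosed K] [CharZero K] :
    (HoldsOver P K ↔ {p : Nat.Primes | HoldsOver P (Fbar p)}.Infinite) ∧
    (HoldsOver P K ↔ {p : Nat.Primes | ¬ HoldsOver P (Fbar p)}.Finite) := by
  obtain ⟨ψ, hψ⟩ := hP.sentence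
  let _ := compatibleRingOfRing K
  have h0 : HoldsOver P K ↔ Theory.ACF 0 ⊨ᵇ ψ := by
    rw [← hψ K]
    exact (ACF_isComplete (Or.inr rfl)).realize_sentence_iff ψ K
  have hp : ∀ p : Nat.Primes, HoldsOver P (Fbar p) ↔ Theory.ACF p ⊨ᵇ ψ := by
    intro p
    let _ := compatibleRingOfRing (Fbar p)
    rw [← hψ (Fbar p)]
    exact (ACF_isComplete (Or.inl p.2)).realize_sentence_iff ψ (Fbar p)
  constructor
  · rw [h0, ACF_zero_realize_iff_infinite_ACF_prime_realize]
    simp only [hp]
  · rw [h0, ACF_zero_realize_iff_finite_ACF_prime_not_realize]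
    simp only [hp]
    rfl

end Pool.Agent.Q26.CP
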