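import Pool.Agent.Q26.CP.Main

/-!
# The four equivalent forms, for a problem stated in other words
-/

set_option autoImplicit false

namespace Pool.Agent.Q26.CP

/-- the four equivalent forms of a problem `S` whose effective form with bound `n` over `K` is `E n K` -/
theorem Problem.four (P : Problem) (S : Prop) (hS : S ↔ P.Solved ℂ)
    (E : ℕ → (K : Type) → [Field K] → Prop)
    (hE : ∀ (n : ℕ) (K : Type) [Field K], P.Uniform n K ↔ E n K) :
    [S, ∃ n, ∀ (K : Type) [Field K] [IsAlgClosed K] [CharZero K], E n K,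
      ∃ n, {p : Nat.Primes | E n (Fbar p)}.Infinite,
      ∃ n, {p : Nat.Primes | ¬ E n (Fbar p)}.Finite].TFAE := by
  tfae_have 1 → 2 := by
    intro h
    obtain ⟨n, hn⟩ : ∃ n, ∀ (K : Type) [Field K] [IsAlgClosed K] [CharZero K], P.Uniform n K :=
      (P.tfae.out 0 2).1 (hS.1 h)
    exact ⟨n, fun K _ _ _ => (hE n K).1 (hn K)⟩
  tfae_have 2 → 4 := by
    rintro ⟨n, hn⟩
    refine ⟨n, ?_⟩
    simp only [← hE]
    exact (P.uniform_iff_finite n ℂ).1 ((hE n ℂ).2 (hn ℂ))
  tfae_have 4 → 3 := by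
    rintro ⟨n, hn⟩
    simp only [← hE] at hn
    refine ⟨n, ?_⟩
    simp only [← hE]
    exact (P.uniform_iff_infinite n ℂ).1 ((P.uniform_iff_finite n ℂ).2 hn)
  tfae_have 3 → 1 := by
    rintro ⟨n, hn⟩
    simp only [← hE] at hn
    rw [hS]
    exact ((P.uniform_iff_infinite n ℂ).2 hn).solved
  tfae_finish

/-- the same number works over all algebraically closed fields of characteristic zero, and modulo
almost all primes -/
theorem Problem.four' (P : Problem) (E : ℕ → (K : Type) → [Field K] → Prop)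
    (hE : ∀ (n : ℕ) (K : Type) [Field K], P.Uniform n K ↔ E n K) (n : ℕ) (K : Type) [Field K]
    [IsAlgClosed K] [CharZero K] :
    (E n K ↔ {p : Nat.Primes | E n (Fbar p)}.Infinite) ∧
    (E n K ↔ {p : Nat.Primes | ¬ E n (Fbar p)}.Finite) := by
  simp only [← hE]
  exact ⟨P.uniform_iff_infinite n K, P.uniform_iff_finite n K⟩

end Pool.Agent.Q26.CP
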