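import Pool.Agent.Q26.CP.Four

/-!
# The four equivalent forms, for statements of the form: for all `m` and `x` there is an `n`
-/

set_option autoImplicit false

namespace Pool.Agent.Q26.CP

open FirstOrder FirstOrder.Language FirstOrder.Ring FirstOrder.Field

theorem IsFirstOrder.congr {k : ℕ} {P Q : Pred k} (hP : IsFirstOrder P)
    (h : ∀ (K : Type) [Field K] (x : Fin k → K), P K x ↔ Q K x) : IsFirstOrder Q := by
  obtain ⟨φ, hφ⟩ := hP
  exact ⟨φ, fun K _ _ _ x => (hφ K x).trans (h K x)⟩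

/-- finite conjunctions of first-order properties are first-order -/
theorem IsFirstOrder.forall_le {k : ℕ} (P : ℕ → Pred k) (hP : ∀ i, IsFirstOrder (P i)) (d : ℕ) :
    IsFirstOrder (fun K _ x => ∀ i ≤ d, P i K x) := by
  induction d with
  | zero =>
    refine (hP 0).congr fun K _ x => ⟨fun h i hi => ?_, fun h => h 0 le_rfl⟩
    obtain rfl : i = 0 := by omega
    exact h
  | succ d ih =>
    refine (ih.and (hP (d + 1))).congr fun K _ x => ⟨fun h i hi => ?_, fun h =>
      ⟨fun i hi => h i (by omega), h _ le_rfl⟩⟩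
    rcases Nat.lt_or_ge d i with h1 | h1
    · obtain rfl : i = d + 1 := by omega
      exact h.2
    · exact h.1 i h1

/-- the four equivalent forms of a problem `S` which says that all the problems `P m` are solved,
where the effective form of `P m` with bound `n` over `K` is `E m n K` -/
theorem four_all (P : ℕ → Problem) (S : Prop) (hS : S ↔ ∀ m, (P m).Solved ℂ)
    (E : ℕ → ℕ → (K : Type) → [Field K] → Prop)
    (hE : ∀ (m n : ℕ) (K : Type) [Field K], (P m).Uniform n K ↔ E m n K) :
    [S, ∀ m, ∃ n, ∀ (K : Type) [Field K] [IsAlgClosed K] [CharZero K], E m n K,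
      ∀ m, ∃ n, {p : Nat.Primes | E m n (Fbar p)}.Infinite,
      ∀ m, ∃ n, {p : Nat.Primes | ¬ E m n (Fbar p)}.Finite].TFAE := by
  have h0 : ∀ m, [(P m).Solved ℂ, ∃ n, ∀ (K : Type) [Field K] [IsAlgClosed K] [CharZero K], E m n K,
      ∃ n, {p : Nat.Primes | E m n (Fbar p)}.Infinite,
      ∃ n, {p : Nat.Primes | ¬ E m n (Fbar p)}.Finite].TFAE := fun m =>
    (P m).four _ Iff.rfl (fun n K _ => E m n K) (fun n K _ => hE m n K)
  tfae_have 1 → 2 := fun h m => ((h0 m).out 0 1).1 (hS.1 h m)
  tfae_have 2 → 4 := fun h m => ((h0 m).out 1 3).1 (h m)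
  tfae_have 4 → 3 := fun h m => ((h0 m).out 3 2).1 (h m)
  tfae_have 3 → 1 := fun h => hS.2 fun m => ((h0 m).out 2 0).1 (h m)
  tfae_finish

end Pool.Agent.Q26.CP
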