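import Pool.Agent.Q26.CP.Sat

/-!
# Uniformity and reduction modulo `p`
-/

set_option autoImplicit false

namespace Pool.Agent.Q26.CP

/-- the property `H → C` -/
abbrev impl {k : ℕ} (H C : Pred k) : Pred k := fun K _ x => H K x → C K x

/-- A bounded family of geometric objects, with parameters in an affine space of dimension `k`:
`hyp n` are hypotheses which get stronger with `n` and `con n` are conclusions which get weaker with
`n`; all are first-order properties of the parameters. -/
structure Problem where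
  k : ℕ
  hyp : ℕ → Pred k
  con : ℕ → Pred k
  fo_hyp : ∀ n, IsFirstOrder (hyp n)
  fo_con : ∀ n, IsFirstOrder (con n)
  hyp_anti : ∀ (m n : ℕ), m ≤ n → ∀ (K : Type) [Field K] (x : Fin k → K), hyp n K x → hyp m K x
  con_mono : ∀ (m n : ℕ), m ≤ n → ∀ (K : Type) [Field K] (x : Fin k → K), con m K x → con n K x

/-- if all the hypotheses hold for a point over `K`, then one of the conclusions does -/
def Problem.Solved (P : Problem) (K : Type) [Field K] : Prop :=
  ∀ x : Fin P.k → K, (∀ n, P.hyp n K x) → ∃ n, P.con n K x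

/-- the `n`-th hypothesis implies the `n`-th conclusion, for all points over `K` -/
def Problem.Uniform (P : Problem) (n : ℕ) (K : Type) [Field K] : Prop :=
  ∀ x : Fin P.k → K, P.hyp n K x → P.con n K x

theorem Problem.fo (P : Problem) (n : ℕ) : IsFirstOrder (impl (P.hyp n) (P.con n)) :=
  (P.fo_hyp n).imp (P.fo_con n)

theorem Problem.uniform_iff (P : Problem) (n : ℕ) (K : Type) [Field K] :
    P.Uniform n K ↔ HoldsOver (impl (P.hyp n) (P.con n)) K := Iff.rfl

theorem Problem.Uniform.solved {P : Problem} {n : ℕ} {K : Type} [Field K] (h : P.Uniform n K) :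
    P.Solved K := fun x hx => ⟨n, h x (hx n)⟩

/-- over the complex numbers a solution is automatically uniform -/
theorem Problem.exists_uniform (P : Problem) (h : P.Solved ℂ) : ∃ n, P.Uniform n ℂ := by
  by_contra hn
  have h1 : ∀ n, ∃ x : Fin P.k → ℂ, P.hyp n ℂ x ∧ ¬ P.con n ℂ x := by
    intro n
    by_contra h2
    refine hn ⟨n, fun x hx => ?_⟩
    by_contra h3
    exact h2 ⟨x, hx, h3⟩
  obtain ⟨x, hx⟩ := saturated (fun n K _ x => P.hyp n K x ∧ ¬ P.con n K x)
    (fun n => (P.fo_hyp n).and (P.fo_con n).not)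
    (fun m n hmn K _ x hx => ⟨P.hyp_anti m n hmn K x hx.1,
      fun h2 => hx.2 (P.con_mono m n hmn K x h2)⟩) h1
  obtain ⟨n, hn⟩ := h x fun n => (hx n).1
  exact (hx n).2 hn

theorem Problem.uniform_congr (P : Problem) (n : ℕ) (K L : Type) [Field K] [IsAlgClosed K]
    [CharZero K] [Field L] [IsAlgClosed L] [CharZero L] : P.Uniform n K ↔ P.Uniform n L := by
  have : CharP K 0 := CharP.ofCharZero K
  have : CharP L 0 := CharP.ofCharZero L
  exact (P.fo n).holdsOver_iff 0 (Or.inr rfl) K L

theorem Problem.uniform_iff_infinite (P : Problem) (n : ℕ) (K : Type) [Field K] [IsAlgClosed K]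
    [CharZero K] : P.Uniform n K ↔ {p : Nat.Primes | P.Uniform n (Fbar p)}.Infinite :=
  ((P.fo n).lefschetz K).1

theorem Problem.uniform_iff_finite (P : Problem) (n : ℕ) (K : Type) [Field K] [IsAlgClosed K]
    [CharZero K] : P.Uniform n K ↔ {p : Nat.Primes | ¬ P.Uniform n (Fbar p)}.Finite :=
  ((P.fo n).lefschetz K).2

/-- there is a bound `n` which works for infinitely many primes -/
def Problem.UniformInfinitely (P : Problem) : Prop :=
  ∃ n, {p : Nat.Primes | P.Uniform n (Fbar p)}.Infinite

/-- there is a bound `n` which works for all but finitely many primes -/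
def Problem.UniformAlmost (P : Problem) : Prop :=
  ∃ n, {p : Nat.Primes | ¬ P.Uniform n (Fbar p)}.Finite

/-- **Uniformity and reduction modulo `p`** -/
theorem Problem.tfae (P : Problem) : [P.Solved ℂ,
    ∀ (K : Type) [Field K] [IsAlgClosed K] [CharZero K], P.Solved K,
    ∃ n, ∀ (K : Type) [Field K] [IsAlgClosed K] [CharZero K], P.Uniform n K,
    P.UniformInfinitely, P.UniformAlmost].TFAE := by
  tfae_have 1 → 3 := by
    intro h
    obtain ⟨n, hn⟩ := P.exists_uniform h
    exact ⟨n, fun K _ _ _ => (P.uniform_congr n ℂ K).1 hn⟩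
  tfae_have 3 → 2 := by
    rintro ⟨n, hn⟩ K _ _ _
    exact (hn K).solved
  tfae_have 2 → 1 := fun h => h ℂ
  tfae_have 3 → 5 := by
    rintro ⟨n, hn⟩
    exact ⟨n, (P.uniform_iff_finite n ℂ).1 (hn ℂ)⟩
  tfae_have 5 → 4 := by
    rintro ⟨n, hn⟩
    exact ⟨n, (P.uniform_iff_infinite n ℂ).1 ((P.uniform_iff_finite n ℂ).2 hn)⟩
  tfae_have 4 → 1 := by
    rintro ⟨n, hn⟩
    exact ((P.uniform_iff_infinite n ℂ).2 hn).solved
  tfae_finish

end Pool.Agent.Q26.CP
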