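import Pool.Agent.Q26.CP.Basic

/-!
# The saturation of the field of complex numbers
-/

set_option autoImplicit false

namespace Pool.Agent.Q26.CP

open FirstOrder FirstOrder.Language FirstOrder.Ring FirstOrder.Field Cardinal Filter

theorem IsFirstOrder.iff_of_ringEquiv {k : ℕ} {P : Pred k} (hP : IsFirstOrder P) {K L : Type}
    [Field K] [IsAlgClosed K] [Field L] [IsAlgClosed L] (e : K ≃+* L) (x : Fin k → K) :
    P K x ↔ P L (e ∘ x) := by
  obtain ⟨φ, hφ⟩ := hP
  let _ := compatibleRingOfRing K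
  let _ := compatibleRingOfRing L
  rw [← hφ, ← hφ]
  exact (StrongHomClass.realize_formula (languageEquivEquivRingEquiv.symm e) φ).symm

/-- decreasing first-order properties, each of which holds for some complex point, hold
simultaneously for some complex point -/
theorem saturated {k : ℕ} (P : ℕ → Pred k) (hP : ∀ n, IsFirstOrder (P n))
    (anti : ∀ (m n : ℕ), m ≤ n → ∀ (K : Type) [Field K] (x : Fin k → K), P n K x → P m K x)
    (h : ∀ n, ∃ x : Fin k → ℂ, P n ℂ x) : ∃ x : Fin k → ℂ, ∀ n, P n ℂ x := by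
  let U : Ultrafilter ℕ := hyperfilter ℕ
  let _ := compatibleRingOfRing ℂ
  let K : Type := (U : Filter ℕ).Product (fun _ => ℂ)
  have hmodel : (Theory.ACF 0).Model K := by
    refine ⟨fun φ hφ => ?_⟩
    rw [Ultraproduct.sentence_realize]
    exact Eventually.of_forall fun _ => Theory.realize_sentence_of_mem (Theory.ACF 0) hφ
  let _ : Field K := fieldOfModelACF 0 K
  have := modelField_of_modelACF 0 K
  let _ := compatibleRingOfModelField K
  have := isAlgClosed_of_model_ACF 0 K
  have hchar := charP_of_model_fieldOfChar 0 K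
  have hle : #K ≤ 𝔠 := by
    have h1 : #K ≤ #(ℕ → ℂ) := Cardinal.mk_le_of_surjective (f := Quotient.mk _)
      Quotient.mk_surjective
    refine h1.trans ?_
    rw [← Cardinal.power_def, mk_nat, mk_complex, continuum_power_aleph0]
  have hge : 𝔠 ≤ #K := by
    rw [← mk_complex]
    refine Cardinal.mk_le_of_injective (f := fun z : ℂ =>
      ((fun _ => z : ∀ _ : ℕ, ℂ) : (U : Filter ℕ).Product (fun _ => ℂ))) ?_
    intro z w hzw
    have h1 : ∀ᶠ _ in (U : Filter ℕ), z = w := Quotient.eq''.1 hzw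
    exact h1.exists.choose_spec
  have hcard : #K = 𝔠 := le_antisymm hle hge
  obtain ⟨e⟩ := IsAlgClosed.ringEquiv_of_equiv_of_char_eq (K := K) (L := ℂ) 0
    (by rw [hcard]; exact aleph0_lt_continuum)
    (Cardinal.eq.1 (by rw [hcard, mk_complex]))
  choose x hx using h
  let y : Fin k → K := fun i => ((fun n => x n i : ∀ _ : ℕ, ℂ) : (U : Filter ℕ).Product _)
  refine ⟨e ∘ y, fun m => ?_⟩
  rw [← (hP m).iff_of_ringEquiv e y]
  obtain ⟨φ, hφ⟩ := hP m
  rw [← hφ K y]
  refine (Ultraproduct.realize_formula_cast φ (fun (i : Fin k) (n : ℕ) => x n i)).2 ?_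
  have h1 : ∀ᶠ n in (U : Filter ℕ), m ≤ n := by
    have h2 : ∀ᶠ n in (cofinite : Filter ℕ), m ≤ n := by
      rw [Nat.cofinite_eq_atTop]
      exact eventually_ge_atTop m
    exact Filter.hyperfilter_le_cofinite h2
  filter_upwards [h1] with n hn
  exact (hφ ℂ (x n)).2 (anti m n hn ℂ (x n) (hx n))

end Pool.Agent.Q26.CP
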